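import Pool.Agent.W217.BE.Stm3

set_option autoImplicit false

namespace Pool.Agent.W407.BELOC34

open Pool.Agent.W217.BE

section
variable {B : Type} [CommRing B] [IsLocalRing B]

theorem kill {m : ℕ} (L : (Fin m → B) →+ IsLocalRing.ResidueField B)
    (hL : IsF (IsLocalRing.residue B) L) (v : Fin m → B)
    (hv : ∀ j, v j ∈ IsLocalRing.maximalIdeal B) : L v = 0 := by
  have h1 : v = ∑ j, v j • (fun k => if j = k then (1 : B) else 0) := pi_eq_sum_univ v
  rw [h1, map_sum]
  apply Finset.sum_eq_zero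
  intro j _
  rw [hL, (IsLocalRing.residue_eq_zero_iff (v j)).mpr (hv j), zero_mul]

theorem certA (r : ℕ → ℕ) (d : ∀ i, (Fin (r (i + 1)) → B) →ₗ[B] (Fin (r i) → B))
    (hmin : ∀ i x j, d i x j ∈ IsLocalRing.maximalIdeal B) (i n : ℕ) (hn : n ≤ r i) :
    Cert (IsLocalRing.residue B) (fun i => Fin (r i) → B) d i n := by
  refine ⟨fun j => Pi.single (Fin.castLE hn j) 1,
    fun j => (IsLocalRing.residue B).toAddMonoidHom.comp
      (Pi.evalAddMonoidHom (fun _ : Fin (r i) => B) (Fin.castLE hn j)), ?_, ?_, ?_, ?_⟩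
  · intro j
    cases i with
    | zero => trivial
    | succ k =>
      intro L hL
      exact kill L hL _ (fun j' => hmin k _ j')
  · intro j s x
    show IsLocalRing.residue B ((s • x) (Fin.castLE hn j)) = IsLocalRing.residue B s * IsLocalRing.residue B (x (Fin.castLE hn j))
    rw [Pi.smul_apply, smul_eq_mul, map_mul]
  · intro j x
    exact (IsLocalRing.residue_eq_zero_iff _).mpr (hmin i x _)
  · intro j k
    show IsLocalRing.residue B ((Pi.single (Fin.castLE hn k) (1 : B) : Fin (r i) → B) (Fin.castLE hn j)) = _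
    by_cases hjk : j = k
    · rw [if_pos hjk, hjk, Pi.single_eq_same, map_one]
    · rw [if_neg hjk, Pi.single_eq_of_ne, map_zero]
      intro h
      exact hjk (Fin.castLE_injective hn h)

/-- if `dX i = 0` in a minimal resolution then `r (i+1) = 0`. -/
theorem step {N : Type} [AddCommGroup N] [Module B N] (r : ℕ → ℕ)
    (dX : ∀ i, (Fin (r (i + 1)) → B) →ₗ[B] (Fin (r i) → B))
    (ε : (Fin (r 0) → B) →ₗ[B] N)
    (hX : IsRes (P := fun i => Fin (r i) → B) dX ε)
    (hmin : ∀ i x j, dX i x j ∈ IsLocalRing.maximalIdeal B) (i : ℕ)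
    (h : ∀ x, dX i x = 0) : r (i + 1) = 0 := by
  by_contra hne
  have hpos : 0 < r (i + 1) := Nat.pos_of_ne_zero hne
  have hk : (Pi.single ⟨0, hpos⟩ 1 : Fin (r (i + 1)) → B) ∈ LinearMap.ker (dX i) := by
    rw [LinearMap.mem_ker]; exact h _
  rw [← hX.2.2 i] at hk
  obtain ⟨y, hy⟩ := hk
  have h1 := hmin (i + 1) y ⟨0, hpos⟩
  rw [hy, Pi.single_eq_same] at h1
  exact (Ideal.ne_top_iff_one _).1 (IsLocalRing.maximalIdeal.isMaximal B).ne_top h1

theorem stepz {N : Type} [AddCommGroup N] [Module B N] (r : ℕ → ℕ)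
    (dX : ∀ i, (Fin (r (i + 1)) → B) →ₗ[B] (Fin (r i) → B))
    (ε : (Fin (r 0) → B) →ₗ[B] N)
    (hX : IsRes (P := fun i => Fin (r i) → B) dX ε)
    (hmin : ∀ i x j, dX i x j ∈ IsLocalRing.maximalIdeal B) (i : ℕ)
    (h : r i = 0) : ∀ k, r (i + k) = 0 := by
  intro k
  induction k with
  | zero => exact h
  | succ k ih =>
    apply step r dX ε hX hmin (i + k)
    intro x
    funext j
    exact absurd j.isLt (by have := ih; omega)

theorem killed {N : Type} [AddCommGroup N] [Module B N] [IsNoetherianRing B] [Nontrivial N]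
    (hann : ∀ q : Ideal B, q.IsPrime → Module.annihilator B N ≤ q →
      q = IsLocalRing.maximalIdeal B) :
    ∃ w : N, w ≠ 0 ∧ ∀ y ∈ IsLocalRing.maximalIdeal B, y • w = 0 := by
  obtain ⟨P, hP⟩ := associatedPrimes.nonempty B N
  rw [AssociatedPrimes.mem_iff, isAssociatedPrime_iff] at hP
  obtain ⟨hPp, w, hw⟩ := hP
  have hle : Module.annihilator B N ≤ P := by
    intro y hy
    rw [hw, Submodule.mem_colon_singleton, Submodule.mem_bot]
    exact Module.mem_annihilator.1 hy w
  have hPm := hann P hPp hle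
  refine ⟨w, ?_, ?_⟩
  · rintro rfl
    apply hPp.ne_top
    rw [hw]
    simp
  · intro y hy
    rw [← hPm, hw, Submodule.mem_colon_singleton, Submodule.mem_bot] at hy
    exact hy

end

theorem main : MINRES → INDEP → MAC → REGDOM → REGRES → RKX → DUALM → LOC34 := by
  intro hMIN hIND hMAC hRD hREG hRKX hDUAL B _ _ N _ _ _ _ hann
  have : IsDomain B := hRD B
  obtain ⟨r, dX, εX, hX, hmin⟩ := hMIN B N
  have hr0 : 1 ≤ r 0 := by
    by_contra hlt
    have h0 : r 0 = 0 := by omega
    have hsub : Subsingleton (Fin (r 0) → B) := by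
      rw [h0]; infer_instance
    have hN : Subsingleton N := hX.1.subsingleton
    exact not_subsingleton N hN
  obtain ⟨w, hw0, hw⟩ := killed hann
  have hfin : (IsLocalRing.maximalIdeal B).height ≠ ⊤ :=
    Ideal.height_ne_top (IsLocalRing.maximalIdeal.isMaximal B).ne_top
  obtain ⟨d, hd⟩ := ENat.ne_top_iff_exists.1 hfin
  obtain ⟨hz, hnz⟩ := hREG d B hd.symm N r dX εX hX hmin
  have hrd : r d ≠ 0 := hnz ⟨w, hw0, hw⟩
  have hcomm : 3 ≤ d → r 3 ≠ 0 ∧ r 1 + 1 ≤ r 0 + r 2 ∧ (r 5 = 0 → r 0 + r 2 + r 4 = r 1 + r 3) := by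
    intro hd3
    have hr3 : r 3 ≠ 0 := by
      intro h3
      have := stepz r dX εX hX hmin 3 h3 (d - 3)
      rw [show 3 + (d - 3) = d by omega] at this
      exact hrd this
    have hA : ∃ a : B, a ≠ 0 ∧ ∀ x : N, a • x = 0 := by
      by_contra hcon
      push Not at hcon
      have hbot : Module.annihilator B N = ⊥ := by
        rw [eq_bot_iff]
        intro a ha
        rw [Ideal.mem_bot]
        by_contra ha0
        obtain ⟨x, hx⟩ := hcon a ha0
        exact hx (Module.mem_annihilator.1 ha x)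
      have h1 := hann ⊥ Ideal.isPrime_bot (by rw [hbot])
      have h2 : (IsLocalRing.maximalIdeal B).height = 0 := by
        rw [← h1]; exact Ideal.height_bot
      rw [h2] at hd
      have h3 : d = 0 := by exact_mod_cast hd
      omega
    obtain ⟨a, ha0, ha⟩ := hA
    obtain ⟨k1, k2⟩ := hRKX B N a ha0 ha r dX εX hX
    refine ⟨hr3, k1 ?_, k2⟩
    by_contra hcon
    push Not at hcon
    exact hr3 (step r dX εX hX hmin 2 hcon)
  have hmac : ∀ e : ℕ, 1 ≤ e → e ≤ d → e + r 0 ≤ r 1 + 1 := by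
    intro e he1 hed
    refine hMAC B N (r 0) (r 1) e (dX 0) εX (fun x j => hmin 0 x j) hX.1 hX.2.1 hann he1 ?_
    rw [← hd]
    exact_mod_cast hed
  constructor
  · intro h3 P _ _ _ dP ε hres i
    have hd3 : 3 ≤ d := by
      rw [← hd] at h3
      exact_mod_cast h3
    apply hIND B _ (IsLocalRing.residue B) N (fun i => Fin (r i) → B) P dX εX dP ε hX hres i
    apply certA r dX hmin
    obtain ⟨c1, c2, -⟩ := hcomm hd3
    have c3 := hmac 3 (by norm_num) hd3
    rcases i with _ | _ | _ | _ | i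
    · simpa using hr0
    · have : 3 ≤ r 1 := by omega
      simpa using this
    · have : 3 ≤ r 2 := by omega
      simpa [Nat.choose] using this
    · have : 1 ≤ r 3 := by omega
      simpa [Nat.choose] using this
    · show Nat.choose 3 (i + 4) ≤ _
      rw [Nat.choose_eq_zero_of_lt (by omega)]; exact Nat.zero_le _
  · intro h4 P _ _ _ dP ε hres i
    have hd4 : d = 4 := by
      rw [← hd] at h4
      exact_mod_cast h4
    subst hd4
    apply hIND B _ (IsLocalRing.residue B) N (fun i => Fin (r i) → B) P dX εX dP ε hX hres i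
    apply certA r dX hmin
    obtain ⟨c1, c2, c3⟩ := hcomm (by norm_num)
    have c4 := hmac 4 (by norm_num) le_rfl
    have c5 : r 5 = 0 := hz 5 (by norm_num)
    have c6 := c3 c5
    have c7 := hDUAL B N r dX εX 4 hX hmin hann c5 hrd (by norm_num) (by rw [← hd])
    rcases i with _ | _ | _ | _ | _ | i
    · simpa using hr0
    · have : 4 ≤ r 1 := by omega
      simpa using this
    · have : 6 ≤ r 2 := by omega
      simpa [Nat.choose] using this
    · have : 4 ≤ r 3 := by omega
      simpa [Nat.choose] using this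
    · have : 1 ≤ r 4 := by omega
      simpa [Nat.choose] using this
    · show Nat.choose 4 (i + 5) ≤ _
      rw [Nat.choose_eq_zero_of_lt (by omega)]; exact Nat.zero_le _

end Pool.Agent.W407.BELOC34
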